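import Pool.Agent.Helper86.TH.Stmts

/-! # Rows KA, KB, KD, PATH of the project TH (MP_1b3f64_co) -/

set_option linter.unusedSectionVars false

namespace TH

namespace H35

open MvPolynomial Finset

variable {K : Type*} [Field K] [CharZero K]

theorem mono_inj {q t : K} (h : Gn q t) {a b c d : ℕ} (e : q ^ a * t ^ b = q ^ c * t ^ d) :
    a = c ∧ b = d := by
  have h1 : q ^ ((a : ℤ) - c) * t ^ ((b : ℤ) - d) = 1 := by
    rw [zpow_sub₀ h.q0, zpow_sub₀ h.t0, zpow_natCast, zpow_natCast, zpow_natCast, zpow_natCast,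
      div_mul_div_comm, e, div_self]
    exact mul_ne_zero (pow_ne_zero _ h.q0) (pow_ne_zero _ h.t0)
  have := h.ind _ _ h1
  omega

section zs
variable {q t : K} (h : Gn q t) (μ : Par)
include h

theorem z_ne_z {i j : ℕ} (hij : i ≠ j) : zc q t μ i ≠ zc q t μ j := by
  intro e
  have := mono_inj h (a := μ.1 i) (b := i) (c := μ.1 j) (d := j) (by
    unfold zc at e; rw [mul_comm, e, mul_comm])
  exact hij this.2

theorem qz_ne_z {i j : ℕ} (hij : i ≠ j) : q * zc q t μ i ≠ zc q t μ j := by
  intro e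
  have := mono_inj h (a := μ.1 i + 1) (b := i) (c := μ.1 j) (d := j) (by
    unfold zc at e; rw [mul_comm (q ^ μ.1 j), ← e, pow_succ]; ring)
  exact hij this.2

theorem qtz_ne_z {i j : ℕ} : q * t * zc q t μ i ≠ zc q t μ j := by
  intro e
  have := mono_inj h (a := μ.1 i + 1) (b := i + 1) (c := μ.1 j) (d := j) (by
    unfold zc at e; rw [mul_comm (q ^ μ.1 j), ← e, pow_succ, pow_succ]; ring)
  have h2 := μ.anti (show i ≤ j by omega)
  omega

theorem tz_ne_z {i j : ℕ} (hi : Adb μ i) : t * zc q t μ j ≠ zc q t μ i := by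
  intro e
  have := mono_inj h (a := μ.1 j) (b := j + 1) (c := μ.1 i) (d := i) (by
    unfold zc at e; rw [mul_comm (q ^ μ.1 i), ← e, pow_succ]; ring)
  have h2 := (adb_iff μ i).1 hi j (by omega)
  omega

theorem z_ne_tN {i N : ℕ} (hiN : i ≠ N) : zc q t μ i ≠ t ^ N := by
  intro e
  have := mono_inj h (a := μ.1 i) (b := i) (c := 0) (d := N) (by
    unfold zc at e; rw [mul_comm, e]; simp)
  exact hiN this.2

theorem qz_ne_tN {i N k : ℕ} : t ^ k * (q * zc q t μ i) ≠ t ^ N := by
  intro e
  have := mono_inj h (a := μ.1 i + 1) (b := i + k) (c := 0) (d := N) (by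
    unfold zc at e; rw [pow_zero, one_mul, ← e, pow_succ, pow_add]; ring)
  omega

end zs

/-- the factor in `kap` -/
noncomputable def fac (q t x y : K) : K :=
  ((1 - t * y / x) * (1 - q * x / y)) / ((1 - y / x) * (1 - q * t * x / y))

theorem one_sub_div_ne {x y : K} (hx : x ≠ 0) (h : y ≠ x) : 1 - y / x ≠ 0 := by
  intro e
  apply h
  have : y / x = 1 := by linear_combination -e
  rwa [div_eq_one_iff_eq hx] at this

/-- `fac (z_i, z_j) * fac (z_j, q z_i) = 1` -/
theorem fac_mul {q t x y : K} (hq : q ≠ 0) (hx : x ≠ 0) (hy : y ≠ 0) (h1 : x ≠ y)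
    (h2 : q * x ≠ y) (h3 : t * y ≠ x) (h4 : q * t * x ≠ y) :
    fac q t x y * fac q t y (q * x) = 1 := by
  have e1 : 1 - t * y / x ≠ 0 := one_sub_div_ne hx h3
  have e2 : 1 - q * x / y ≠ 0 := one_sub_div_ne hy h2
  have e3 : 1 - y / x ≠ 0 := one_sub_div_ne hx h1.symm
  have e4 : 1 - q * t * x / y ≠ 0 := one_sub_div_ne hy h4
  have r1 : 1 - t * (q * x) / y = 1 - q * t * x / y := by ring
  have r2 : 1 - q * y / (q * x) = 1 - y / x := by
    rw [mul_div_mul_left _ _ hq]
  have r3 : 1 - q * t * y / (q * x) = 1 - t * y / x := by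
    rw [mul_assoc, mul_div_mul_left _ _ hq]
  unfold fac
  rw [r1, r2, r3, div_mul_div_comm, div_eq_one_iff_eq (mul_ne_zero (mul_ne_zero e3 e4)
    (mul_ne_zero e2 e1))]
  ring

theorem kap_eq (q t : K) (N : ℕ) (μ : Par) (i : ℕ) : kap q t N μ i =
    -(q * t * zc q t μ i) / ((1 - t ^ N / zc q t μ i) * (1 - t / t ^ N * q * zc q t μ i)) *
      ∏ j ∈ (range N).erase i, fac q t (zc q t μ i) (zc q t μ j) := rfl

theorem zc_up_same (q t : K) {μ : Par} {i : ℕ} (hi : Adb μ i) :
    zc q t (up μ i) i = q * zc q t μ i := by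
  unfold zc
  rw [up_apply_same hi, pow_succ]; ring

theorem zc_up_ne (q t : K) {μ : Par} {i j : ℕ} (hi : Adb μ i) (hj : j ≠ i) :
    zc q t (up μ i) j = zc q t μ j := by
  unfold zc
  rw [up_apply_ne hi hj]

theorem adb_lt {μ : Par} {i N : ℕ} (hi : Adb μ i) (hN : card μ < N) : i < N := by
  rcases Nat.eq_zero_or_pos i with h0 | h0
  · omega
  · have h1 := (adb_iff μ i).1 hi (i - 1) (by omega)
    have := μ.lt_card_of_pos (i := i - 1) (by omega)
    omega

theorem kd_aux {q t : K} (h : Gn q t) {μ : Par} {N i j : ℕ} (hN : card μ + 1 < N) (hij : i ≠ j)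
    (hi : Adb μ i) (hj : Adb μ j) :
    kap q t N μ i * kap q t N (up μ i) j =
      (-(q * t * zc q t μ i) / ((1 - t ^ N / zc q t μ i) * (1 - t / t ^ N * q * zc q t μ i))) *
      (-(q * t * zc q t μ j) / ((1 - t ^ N / zc q t μ j) * (1 - t / t ^ N * q * zc q t μ j))) *
      ((∏ l ∈ ((range N).erase i).erase j, fac q t (zc q t μ i) (zc q t μ l)) *
        ∏ l ∈ ((range N).erase i).erase j, fac q t (zc q t μ j) (zc q t μ l)) := by
  rw [kap_eq, kap_eq, zc_up_ne q t hi hij.symm]
  have hjN : j ∈ (range N).erase i := Finset.mem_erase.2 ⟨hij.symm, mem_range.2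
    (adb_lt hj (by omega))⟩
  have hiN : i ∈ (range N).erase j := Finset.mem_erase.2 ⟨hij, mem_range.2
    (adb_lt hi (by omega))⟩
  rw [← Finset.mul_prod_erase _ _ hjN, ← Finset.mul_prod_erase _ _ hiN, zc_up_same q t hi]
  have e : ∏ l ∈ ((range N).erase j).erase i, fac q t (zc q t μ j) (zc q t (up μ i) l)
      = ∏ l ∈ ((range N).erase i).erase j, fac q t (zc q t μ j) (zc q t μ l) := by
    rw [Finset.erase_right_comm]
    refine Finset.prod_congr rfl fun l hl => ?_
    rw [zc_up_ne q t hi (Finset.mem_erase.1 (Finset.mem_erase.1 hl).2).1]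
  rw [e]
  have hf := fac_mul (t := t) h.q0 (h.zc_ne μ i) (h.zc_ne μ j) (z_ne_z h μ hij) (qz_ne_z h μ hij)
    (tz_ne_z h μ (j := j) hi) (qtz_ne_z h μ (i := i) (j := j))
  linear_combination (-(q * t * zc q t μ i) / ((1 - t ^ N / zc q t μ i) *
      (1 - t / t ^ N * q * zc q t μ i))) *
      (-(q * t * zc q t μ j) / ((1 - t ^ N / zc q t μ j) * (1 - t / t ^ N * q * zc q t μ j))) *
      ((∏ l ∈ ((range N).erase i).erase j, fac q t (zc q t μ i) (zc q t μ l)) *
        ∏ l ∈ ((range N).erase i).erase j, fac q t (zc q t μ j) (zc q t μ l)) * hf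

theorem st_KD : ST_KD K := by
  intro q t h μ N i j hN hij hi hj _ _
  rw [kd_aux h hN hij hi hj, kd_aux h hN hij.symm hj hi, Finset.erase_right_comm]
  ring

theorem kb_step {q t : K} (h : Gn q t) {μ : Par} {N i : ℕ} (hN : card μ < N) (hi : Adb μ i) :
    kap q t (N + 1) μ i = kap q t N μ i := by
  have hiN : i < N := adb_lt hi hN
  rw [kap_eq, kap_eq]
  have e : (range (N + 1)).erase i = insert N ((range N).erase i) := by
    rw [Finset.range_add_one, Finset.erase_insert_of_ne (by omega)]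
  rw [e, Finset.prod_insert (by simp)]
  have hz : zc q t μ N = t ^ N := by
    unfold zc
    rw [μ.zero_of_card_le hN.le]; simp
  rw [hz]
  set z := zc q t μ i with hzdef
  have hz0 : z ≠ 0 := h.zc_ne μ i
  have ht := h.t0
  have htN : t ^ N ≠ 0 := pow_ne_zero _ ht
  have a1 : 1 - t ^ (N + 1) / z ≠ 0 := one_sub_div_ne hz0 (z_ne_tN h μ (by omega)).symm
  have a2 : 1 - q * z / t ^ N ≠ 0 := by
    refine one_sub_div_ne htN ?_
    have := qz_ne_tN h μ (i := i) (N := N) (k := 0)
    simpa using this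
  have r1 : 1 - t / t ^ (N + 1) * q * z = 1 - q * z / t ^ N := by
    rw [pow_succ]; field_simp
  have r2 : 1 - t * t ^ N / z = 1 - t ^ (N + 1) / z := by rw [pow_succ, mul_comm t]
  have r3 : 1 - q * t * z / t ^ N = 1 - t / t ^ N * q * z := by ring
  unfold fac
  rw [r1, r2, r3]
  have key : -(q * t * z) / ((1 - t ^ (N + 1) / z) * (1 - q * z / t ^ N)) *
      ((1 - t ^ (N + 1) / z) * (1 - q * z / t ^ N) /
        ((1 - t ^ N / z) * (1 - t / t ^ N * q * z)))
      = -(q * t * z) / ((1 - t ^ N / z) * (1 - t / t ^ N * q * z)) := by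
    rw [div_mul_div_cancel₀ (mul_ne_zero a1 a2)]
  rw [← mul_assoc, key]

theorem kb_all {q t : K} (h : Gn q t) {μ : Par} {i : ℕ} (hi : Adb μ i) (k : ℕ) :
    kap q t (card μ + 1 + k) μ i = kap q t (card μ + 1) μ i := by
  induction k with
  | zero => rfl
  | succ k ih => rw [← ih, ← add_assoc, kb_step h (by omega) hi]

theorem st_KB : ST_KB K := by
  intro q t h μ N N' i hN hN' hi
  obtain ⟨k, rfl⟩ := Nat.exists_eq_add_of_le (show card μ + 1 ≤ N by omega)
  obtain ⟨k', rfl⟩ := Nat.exists_eq_add_of_le (show card μ + 1 ≤ N' by omega)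
  rw [kb_all h hi, kb_all h hi]

theorem st_KA : ST_KA K := by
  intro q t h μ N i hN hi
  have hiN : i < N := adb_lt hi hN
  have hz0 : ∀ j, zc q t μ j ≠ 0 := fun j => h.zc_ne μ j
  have ht := h.t0
  have hq := h.q0
  have htN : t ^ N ≠ 0 := pow_ne_zero _ ht
  have a1 : 1 - t ^ N / zc q t μ i ≠ 0 := one_sub_div_ne (hz0 i) (z_ne_tN h μ (by omega)).symm
  have a2 : 1 - t / t ^ N * q * zc q t μ i ≠ 0 := by
    have := qz_ne_tN h μ (i := i) (N := N) (k := 1)
    have e : t / t ^ N * q * zc q t μ i = (t ^ 1 * (q * zc q t μ i)) / t ^ N := by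
      rw [pow_one]; ring
    rw [e]
    exact one_sub_div_ne htN this
  have b1 : ∀ j ∈ (range N).erase i, 1 - q * zc q t μ i / zc q t μ j ≠ 0 := fun j hj =>
    one_sub_div_ne (hz0 j) (qz_ne_z h μ (Finset.ne_of_mem_erase hj).symm)
  have b2 : ∀ j ∈ (range N).erase i, 1 - q * t * zc q t μ i / zc q t μ j ≠ 0 := fun j hj =>
    one_sub_div_ne (hz0 j) (qtz_ne_z h μ)
  have b3 : ∀ j ∈ (range N).erase i, 1 - zc q t μ j / zc q t μ i ≠ 0 := fun j hj =>
    one_sub_div_ne (hz0 i) (z_ne_z h μ (Finset.ne_of_mem_erase hj))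
  have b4 : ∀ j ∈ (range N).erase i, 1 - t * zc q t μ j / zc q t μ i ≠ 0 := fun j hj =>
    one_sub_div_ne (hz0 i) (tz_ne_z h μ hi)
  constructor
  · have hrho : rho q t N (up μ i) i = (1 - t) * (1 - t / t ^ N * q * zc q t μ i) *
        ∏ j ∈ (range N).erase i, (1 - q * t * zc q t μ i / zc q t μ j) /
          (1 - q * zc q t μ i / zc q t μ j) := by
      unfold rho
      rw [zc_up_same q t hi]
      have e1 : ∏ j ∈ (range N).erase i, (1 - t * (q * zc q t μ i) / zc q t (up μ i) j) /
          (1 - q * zc q t μ i / zc q t (up μ i) j) = ∏ j ∈ (range N).erase i,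
          (1 - q * t * zc q t μ i / zc q t μ j) / (1 - q * zc q t μ i / zc q t μ j) := by
        refine Finset.prod_congr rfl fun j hj => ?_
        rw [zc_up_ne q t hi (Finset.ne_of_mem_erase hj)]
        congr 1
        ring
      rw [e1]
      ring
    have hprod : (∏ j ∈ (range N).erase i, fac q t (zc q t μ i) (zc q t μ j)) *
        ∏ j ∈ (range N).erase i, (1 - q * t * zc q t μ i / zc q t μ j) /
          (1 - q * zc q t μ i / zc q t μ j)
        = ∏ j ∈ (range N).erase i, (1 - t * zc q t μ j / zc q t μ i) /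
          (1 - zc q t μ j / zc q t μ i) := by
      rw [← Finset.prod_mul_distrib]
      refine Finset.prod_congr rfl fun j hj => ?_
      have c1 := b1 j hj
      have c2 := b2 j hj
      have c3 := b3 j hj
      unfold fac
      rw [div_mul_div_comm, div_eq_div_iff (mul_ne_zero (mul_ne_zero c3 c2) c1) c3]
      ring
    have hrr : rr q t N μ i = (1 - t) / (zc q t μ i - t ^ N) *
        ∏ j ∈ (range N).erase i, (1 - t * zc q t μ j / zc q t μ i) /
          (1 - zc q t μ j / zc q t μ i) := rfl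
    rw [hrr, kap_eq, hrho, ← hprod]
    set P1 := ∏ j ∈ (range N).erase i, fac q t (zc q t μ i) (zc q t μ j)
    set P2 := ∏ j ∈ (range N).erase i, (1 - q * t * zc q t μ i / zc q t μ j) /
          (1 - q * zc q t μ i / zc q t μ j)
    set z := zc q t μ i
    have hz : z ≠ 0 := hz0 i
    have e1 : z - t ^ N = z * (1 - t ^ N / z) := by field_simp
    rw [e1]
    set A := 1 - t ^ N / z
    set B := 1 - t / t ^ N * q * z
    field_simp
  · rw [kap_eq]
    refine mul_ne_zero (div_ne_zero (neg_ne_zero.2 (mul_ne_zero (mul_ne_zero hq ht) (hz0 i)))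
      (mul_ne_zero a1 a2)) (Finset.prod_ne_zero_iff.2 fun j hj => ?_)
    exact div_ne_zero (mul_ne_zero (b4 j hj) (b1 j hj)) (mul_ne_zero (b3 j hj) (b2 j hj))

/-! ### PATH -/

theorem exists_last {μ : Par} (h : card μ ≠ 0) : ∃ l, Rmb μ l ∧ ∀ j, l < j → μ.1 j = 0 := by
  classical
  have hne : μ.1.support.Nonempty := by
    by_contra h1
    rw [Finset.not_nonempty_iff_eq_empty] at h1
    apply h
    rw [card, h1]; simp
  set l := μ.1.support.max' hne
  have hl : μ.1 l ≠ 0 := Finsupp.mem_support_iff.1 (μ.1.support.max'_mem hne)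
  have h2 : ∀ j, l < j → μ.1 j = 0 := by
    intro j hj
    by_contra h3
    have := μ.1.support.le_max' j (Finsupp.mem_support_iff.2 h3)
    omega
  refine ⟨l, (rmb_iff μ l).2 fun j hj => ?_, h2⟩
  rw [h2 j hj]
  omega

/-- the last row -/
noncomputable def lst (μ : Par) (h : card μ ≠ 0) : ℕ := (exists_last h).choose

theorem lst_rmb {μ : Par} (h : card μ ≠ 0) : Rmb μ (lst μ h) := (exists_last h).choose_spec.1

theorem lst_zero {μ : Par} (h : card μ ≠ 0) : ∀ j, lst μ h < j → μ.1 j = 0 :=
  (exists_last h).choose_spec.2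

theorem lst_eq {μ : Par} (h : card μ ≠ 0) {l : ℕ} (h1 : Rmb μ l) (h2 : ∀ j, l < j → μ.1 j = 0) :
    lst μ h = l := by
  rcases lt_trichotomy (lst μ h) l with h3 | h3 | h3
  · have := lst_zero h l h3
    have := h1.1
    omega
  · exact h3
  · have := h2 _ h3
    have := (lst_rmb h).1
    omega

/-- the function of row PATH -/
noncomputable def pa (κ : Par → ℕ → K) (μ : Par) : K :=
  if h : card μ = 0 then 1 else κ (dn μ (lst μ h)) (lst μ h) * pa κ (dn μ (lst μ h))
termination_by card μ
decreasing_by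
  have := card_dn (lst_rmb h)
  omega

theorem pa_eq (κ : Par → ℕ → K) {μ : Par} {l : ℕ} (h1 : Rmb μ l) (h2 : ∀ j, l < j → μ.1 j = 0) :
    pa κ μ = κ (dn μ l) l * pa κ (dn μ l) := by
  have h : card μ ≠ 0 := by
    have := card_dn h1
    omega
  rw [pa, dif_neg h, lst_eq h h1 h2]

theorem st_PATH : ST_PATH K := by
  intro κ hκ
  refine ⟨pa κ, ?_, ?_⟩
  · rw [pa, dif_pos card_P0]
  · intro μ
    induction hn : card μ using Nat.strong_induction_on generalizing μ with
    | _ n ih =>
      intro i hi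
      by_cases hlast : ∀ j, i < j → μ.1 j = 0
      · rw [pa_eq κ (rmb_up hi) (fun j hj => by rw [up_apply_ne hi (by omega)]; exact hlast j hj),
          dn_up hi]
      · push Not at hlast
        obtain ⟨j0, hj0, hj0'⟩ := hlast
        have hc : card μ ≠ 0 := by
          have := μ.lt_card_of_pos (Nat.pos_of_ne_zero hj0')
          omega
        obtain ⟨l, hl, hl0⟩ := exists_last hc
        have hil : i < l := by
          by_contra h3
          exact hj0' (hl0 j0 (by omega))
        -- the partition without the last box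
        have hi' : Adb (dn μ l) i := by
          rw [adb_iff]
          intro j hj
          rw [dn_apply_ne hl (by omega), dn_apply_ne hl (by omega)]
          exact (adb_iff μ i).1 hi j hj
        have hlu : Rmb (up μ i) l := by
          rw [rmb_iff]
          intro j hj
          rw [up_apply_ne hi (by omega), up_apply_ne hi (by omega)]
          exact (rmb_iff μ l).1 hl j hj
        have hlu0 : ∀ j, l < j → (up μ i).1 j = 0 := by
          intro j hj
          rw [up_apply_ne hi (by omega)]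
          exact hl0 j hj
        have hcomm : dn (up μ i) l = up (dn μ l) i := by
          apply Subtype.ext
          rw [dn_val hlu, up_val hi, up_val hi', dn_val hl]
          ext j
          simp only [Finsupp.tsub_apply, Finsupp.add_apply, Finsupp.single_apply]
          split_ifs <;> omega
        have hA1 : Adb (dn μ l) l := adb_dn hl
        have hA2 : Adb (up (dn μ l) i) l := by
          rw [← hcomm]; exact adb_dn hlu
        have hA3 : Adb (up (dn μ l) l) i := by
          rw [up_dn hl]; exact hi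
        have hd := hκ (dn μ l) i l (by omega) hi' hA1 hA2 hA3
        have hcd := card_dn hl
        have hih := ih (card (dn μ l)) (by omega) (dn μ l) rfl i hi'
        rw [pa_eq κ hlu hlu0, hcomm, hih, pa_eq κ hl hl0]
        rw [up_dn hl] at hd
        calc κ (up (dn μ l) i) l * (κ (dn μ l) i * pa κ (dn μ l))
            = (κ (dn μ l) i * κ (up (dn μ l) i) l) * pa κ (dn μ l) := by ring
          _ = (κ (dn μ l) l * κ μ i) * pa κ (dn μ l) := by rw [hd]
          _ = κ μ i * (κ (dn μ l) l * pa κ (dn μ l)) := by ring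

end H35

end TH
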